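import Pool.Agent.Y121.ZI.Stm
import Pool.Agent.Y133.Half.Gr0

/-!
# The dimension of the span of a finite group of monomial operators
(adapted from `Pool.Agent.Y133.Half.Gr0`)
-/

set_option autoImplicit false
set_option linter.unusedSectionVars false

universe u w

namespace Pool.Agent.Y809.ZI

open Module Pool.Agent.Y133.Half
open scoped TensorProduct

section closed

variable {K M Γ ι : Type*} [Field K] [AddCommGroup M] [Module K M] [FiniteDimensional K M]
  [Group Γ] [Finite Γ] [Fintype ι] [DecidableEq ι] {N : ℕ}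

/-- The algebra spanned by a representation. -/
noncomputable def gAlg (ρ : Γ →* Module.End K M) : Subalgebra K (Module.End K M) :=
  (MonoidAlgebra.lift K _ _ ρ).range

instance gAlg_ss [CharZero K] (ρ : Γ →* Module.End K M) : IsSemisimpleRing (gAlg ρ) := by
  have hne : NeZero ((Nat.card Γ : K)) := ⟨Nat.cast_ne_zero.2 Nat.card_pos.ne'⟩
  have h1 : IsSemisimpleRing (MonoidAlgebra K Γ) := by
    unfold IsSemisimpleRing
    infer_instance
  let f : MonoidAlgebra K Γ →+* gAlg ρ := ((MonoidAlgebra.lift K _ _ ρ).rangeRestrict).toRingHom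
  have hf : Function.Surjective f := AlgHom.rangeRestrict_surjective _
  exact RingHom.isSemisimpleRing_of_surjective f hf

lemma g_mem (ρ : Γ →* Module.End K M) (σ : Γ) : ρ σ ∈ gAlg ρ :=
  ⟨MonoidAlgebra.single σ 1, by
    change MonoidAlgebra.lift K _ _ ρ (MonoidAlgebra.single σ 1) = _
    rw [MonoidAlgebra.lift_single, one_smul]⟩

lemma gAlg_le (ρ : Γ →* Module.End K M) :
    Subalgebra.toSubmodule (gAlg ρ) ≤ Submodule.span K (Set.range ρ) := by
  rintro _ ⟨x, rfl⟩
  change MonoidAlgebra.lift K _ _ ρ x ∈ _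
  rw [MonoidAlgebra.lift_apply, Finsupp.sum]
  exact Submodule.sum_mem _ fun σ _ => Submodule.smul_mem _ _ (Submodule.subset_span ⟨σ, rfl⟩)

theorem span_closed [IsAlgClosed K] [CharZero K] (e : Basis (Fin N → ι) K M)
    (ρ : Γ →* Module.End K M) (g : Equiv.Perm (Fin N) → Γ)
    (hP : ∀ σ w, ∃ s : K, s ≠ 0 ∧ ρ (g σ) (e (w ∘ σ)) = s • e w) :
    finrank K M ^ 2 ≤ finrank K (Submodule.span K (Set.range ρ)) *
      (N + 1) ^ (Fintype.card ι ^ 2) := by
  let D : Submodule K (Module.End K M) :=
    { carrier := {u | ∀ σ m, u (ρ σ m) = ρ σ (u m)}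
      zero_mem' := fun σ m => by rw [LinearMap.zero_apply, LinearMap.zero_apply, map_zero]
      add_mem' := fun {a b} ha hb σ m => by
        rw [LinearMap.add_apply, LinearMap.add_apply, ha σ m, hb σ m, map_add]
      smul_mem' := fun c a ha σ m => by
        rw [LinearMap.smul_apply, LinearMap.smul_apply, ha σ m, map_smul] }
  have h1 := commutant_le e (fun σ => ρ (g σ)) hP D fun u hu σ m => hu (g σ) m
  have h2 := sq_le_mul_commutant K (gAlg ρ) M D fun u hu σ m => hu ⟨_, g_mem ρ σ⟩ m
  have h3 : finrank K (gAlg ρ) ≤ finrank K (Submodule.span K (Set.range ρ)) :=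
    Submodule.finrank_mono (gAlg_le ρ)
  exact h2.trans (Nat.mul_le_mul h3 h1)

/-- The dimension of the span of a finite group of monomial operators. -/
theorem span_gen [CharZero K] (e : Basis (Fin N → ι) K M)
    (ρ : Γ →* Module.End K M) (g : Equiv.Perm (Fin N) → Γ)
    (hP : ∀ σ w, ∃ s : K, s ≠ 0 ∧ ρ (g σ) (e (w ∘ σ)) = s • e w) :
    finrank K M ^ 2 ≤ finrank K (Submodule.span K (Set.range ρ)) *
      (N + 1) ^ (Fintype.card ι ^ 2) := by
  have hc : CharZero (AlgebraicClosure K) :=
    charZero_of_injective_algebraMap (algebraMap K (AlgebraicClosure K)).injective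
  let ρ' : Γ →* Module.End (AlgebraicClosure K) (AlgebraicClosure K ⊗[K] M) :=
    { toFun := fun σ => (ρ σ).baseChange (AlgebraicClosure K)
      map_one' := by rw [map_one, LinearMap.baseChange_one]
      map_mul' := fun σ τ => by rw [map_mul, LinearMap.baseChange_mul] }
  have h := span_closed (e.baseChange (AlgebraicClosure K)) ρ' g (by
    intro σ w
    obtain ⟨s, hs, h⟩ := hP σ w
    refine ⟨algebraMap K _ s, (map_ne_zero _).2 hs, ?_⟩
    rw [Basis.baseChange_apply, Basis.baseChange_apply]
    change (ρ (g σ)).baseChange (AlgebraicClosure K) _ = _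
    rw [LinearMap.baseChange_tmul, h, TensorProduct.tmul_smul, algebraMap_smul])
  have h1 := finrank_span_bc (AlgebraicClosure K) (Set.range ρ)
  have h2 : (fun u : Module.End K M => u.baseChange (AlgebraicClosure K)) '' Set.range ρ =
      Set.range ρ' := by
    rw [← Set.range_comp]; rfl
  rw [h2] at h1
  rw [Module.finrank_baseChange] at h
  exact h.trans (Nat.mul_le_mul_right _ h1)

end closed

open Pool.Agent.Y121.ZI.NCTheory in
theorem mon {K : Type u} [Field K] [CharZero K] (M : Type w) [AddCommGroup M] [Module K M]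
    [FiniteDimensional K M] : SMon K M := by
  intro N m e G hG hP
  choose g hgG hg using hP
  have h := span_gen e ((Units.coeHom (Module.End K M)).comp G.subtype)
    (fun σ => (⟨g σ, hgG σ⟩ : G)) (fun σ w => hg σ w)
  rw [Fintype.card_fin] at h
  have h2 : Set.range ((Units.coeHom (Module.End K M)).comp G.subtype) =
      {f : Module.End K M | ∃ g ∈ G, (g : Module.End K M) = f} := by
    ext f
    constructor
    · rintro ⟨⟨x, hx⟩, rfl⟩
      exact ⟨x, hx, rfl⟩
    · rintro ⟨x, hx, rfl⟩
      exact ⟨⟨x, hx⟩, rfl⟩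
  rw [h2] at h
  exact h

end Pool.Agent.Y809.ZI
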